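import Mathlib
import Pool.Agent.E8helper61.UnivC.Basic
import Pool.Agent.E8helper61.UnivC.Family

set_option autoImplicit false

/-!
# Isomorphism game algebras which do not embed into the C*-algebra of any solution group

Negative answer to Q1. The full C*-algebra `C*(Γ)` of a group has the trivial character. Composed
with a unital star homomorphism `A(G,H) → C*(Γ)` it gives a character of `A(G,H)`, that is, an
isomorphism from `G` to `H`. The two graphs with 24 vertices of the magic square are not isomorphic,
but their isomorphism game algebra is not zero.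
-/

namespace Pool.Agent.Results.MP_3b70de_al.NoUnitalHomH61

open Pool.Agent.E8helper61.UnivC

/-- `p` satisfies the defining relations of the isomorphism game algebra of `G` and `H`: the `p g h`
are projections, the rows and the columns sum up to `1`, and `p g h * p g' h' = 0` if the relation
(equal, adjacent, or distinct and non-adjacent) of `g, g'` in `G` differs from that of `h, h'`
in `H`. -/
structure IsGameFamily {V W : Type} [Fintype V] [Fintype W] (G : SimpleGraph V)
    (H : SimpleGraph W) {A : Type} [CStarAlgebra A] (p : V → W → A) : Prop where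
  mul_self : ∀ g h, p g h * p g h = p g h
  star_eq : ∀ g h, star (p g h) = p g h
  sum_row : ∀ g, ∑ h, p g h = 1
  sum_col : ∀ h, ∑ g, p g h = 1
  orth : ∀ g g' h h', ¬ ((g = g' ↔ h = h') ∧ (G.Adj g g' ↔ H.Adj h h')) → p g h * p g' h' = 0

/-- `A`, with the generators `p g h`, is the isomorphism game algebra `𝒜(G,H)`, the universal unital
C*-algebra with these generators and relations. (The zero algebra is a unital C*-algebra.) -/
structure IsGameAlgebra {V W : Type} [Fintype V] [Fintype W] (G : SimpleGraph V)
    (H : SimpleGraph W) (A : Type) [CStarAlgebra A] (p : V → W → A) : Prop where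
  family : IsGameFamily G H p
  universal : ∀ (B : Type) [CStarAlgebra B] (q : V → W → B), IsGameFamily G H q →
    ∃! φ : A →⋆ₐ[ℂ] B, ∀ g h, φ (p g h) = q g h

/-- `B`, with the unitaries `u x`, is the full C*-algebra of the group `Γ`: every homomorphism from
`Γ` to the unitary group of a unital C*-algebra extends to a unique unital star homomorphism. -/
def IsFullGroupAlgebra (Γ : Type) [Group Γ] (B : Type) [CStarAlgebra B] (u : Γ →* unitary B) :
    Prop :=
  ∀ (C : Type) [CStarAlgebra C] (v : Γ →* unitary C),
    ∃! φ : B →⋆ₐ[ℂ] C, ∀ x, φ (u x : B) = (v x : C)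

/-- The relators of the solution group of `M x = b`; the generator `none` is `J`, the generator
`some i` is `g_i`. -/
def relators {m n : ℕ} (M : Matrix (Fin m) (Fin n) (ZMod 2)) (b : Fin m → ZMod 2) :
    Set (FreeGroup (Option (Fin n))) :=
  let J : FreeGroup (Option (Fin n)) := FreeGroup.of none
  let g : Fin n → FreeGroup (Option (Fin n)) := fun i => FreeGroup.of (some i)
  {J ^ 2} ∪ {r | ∃ i, r = g i ^ 2} ∪ {r | ∃ i, r = J * g i * J⁻¹ * (g i)⁻¹} ∪
    {r | ∃ i j k, M k i = 1 ∧ M k j = 1 ∧ r = g i * g j * (g i)⁻¹ * (g j)⁻¹} ∪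
    {r | ∃ k, r = ((List.finRange n).map fun i => g i ^ (M k i).val).prod * (J ^ (b k).val)⁻¹}

/-- the solution group `Γ(M, b)` of the binary linear system `M x = b` -/
abbrev SolutionGroup {m n : ℕ} (M : Matrix (Fin m) (Fin n) (ZMod 2)) (b : Fin m → ZMod 2) : Type :=
  PresentedGroup (relators M b)

/-! ### Existence of the universal algebras -/

theorem norm_proj {A : Type} [CStarAlgebra A] {x : A} (h1 : x * x = x) (h2 : star x = x) :
    ‖x‖ ≤ 1 := by
  have h := CStarRing.norm_star_mul_self (x := x)
  rw [h2, h1] at h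
  by_contra hlt
  push Not at hlt
  nlinarith

section Existence

variable {V W : Type} [Fintype V] [Fintype W] (G : SimpleGraph V) (H : SimpleGraph W)

theorem admissible_game : Admissible (X := V × W) id
    (fun _ _ q => IsGameFamily G H (fun g h => q (g, h))) where
  norm_le _ _ q hq x := norm_proj (hq.mul_self x.1 x.2) (hq.star_eq x.1 x.2)
  star_eq _ _ q hq x := hq.star_eq x.1 x.2
  reflect D _ p I B _ e hinj hfam := by
    have key : ∀ a b : D, (∀ i, e i a = e i b) → a = b := by
      intro a b h
      rw [← sub_eq_zero]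
      apply hinj
      intro i
      rw [map_sub, h i, sub_self]
    refine ⟨fun g h => key _ _ fun i => ?_, fun g h => key _ _ fun i => ?_,
      fun g => key _ _ fun i => ?_, fun h => key _ _ fun i => ?_,
      fun g g' h h' hne => key _ _ fun i => ?_⟩
    · rw [map_mul]
      exact (hfam i).mul_self g h
    · rw [map_star]
      exact (hfam i).star_eq g h
    · rw [map_sum, map_one]
      exact (hfam i).sum_row g
    · rw [map_sum, map_one]
      exact (hfam i).sum_col h
    · rw [map_mul, map_zero]
      exact (hfam i).orth g g' h h' hne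

theorem exists_gameAlgebra :
    ∃ (A : Type) (_ : CStarAlgebra A) (p : V → W → A), IsGameAlgebra G H A p := by
  obtain ⟨A, _, p, h1, h2⟩ := exists_universal (admissible_game G H)
  refine ⟨A, _, fun g h => p (g, h), h1, fun B _ q hq => ?_⟩
  obtain ⟨φ, hφ, huniq⟩ := h2 B (fun x => q x.1 x.2) hq
  exact ⟨φ, fun g h => hφ (g, h), fun ψ hψ => huniq ψ fun x => hψ x.1 x.2⟩

theorem admissible_group (Γ : Type) [Group Γ] : Admissible (X := Γ) (fun x => x⁻¹)
    (fun _ _ q => q 1 = 1 ∧ (∀ x y, q (x * y) = q x * q y) ∧ ∀ x, star (q x) = q x⁻¹) where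
  norm_le B _ q hq x := by
    rcases subsingleton_or_nontrivial B with h | h
    · rw [Subsingleton.elim (q x) 0, norm_zero]
      exact zero_le_one
    · have h1 := CStarRing.norm_star_mul_self (x := q x)
      rw [hq.2.2, ← hq.2.1, inv_mul_cancel, hq.1, CStarRing.norm_one] at h1
      by_contra hlt
      push Not at hlt
      nlinarith
  star_eq _ _ q hq x := hq.2.2 x
  reflect D _ p I B _ e hinj hfam := by
    have key : ∀ a b : D, (∀ i, e i a = e i b) → a = b := by
      intro a b h
      rw [← sub_eq_zero]
      apply hinj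
      intro i
      rw [map_sub, h i, sub_self]
    refine ⟨key _ _ fun i => ?_, fun x y => key _ _ fun i => ?_, fun x => key _ _ fun i => ?_⟩
    · rw [map_one]
      exact (hfam i).1
    · rw [map_mul]
      exact (hfam i).2.1 x y
    · rw [map_star]
      exact (hfam i).2.2 x

theorem exists_groupAlgebra (Γ : Type) [Group Γ] :
    ∃ (B : Type) (_ : CStarAlgebra B) (u : Γ →* unitary B), IsFullGroupAlgebra Γ B u := by
  obtain ⟨B, _, q, hq, h2⟩ := exists_universal (admissible_group Γ)
  have hu : ∀ x, q x ∈ unitary B := by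
    intro x
    rw [Unitary.mem_iff, hq.2.2, ← hq.2.1, ← hq.2.1, inv_mul_cancel, mul_inv_cancel]
    exact ⟨hq.1, hq.1⟩
  refine ⟨B, _, { toFun := fun x => ⟨q x, hu x⟩
                  map_one' := Subtype.ext hq.1
                  map_mul' := fun x y => Subtype.ext (hq.2.1 x y) }, fun C _ v => ?_⟩
  refine h2 C (fun x => (v x : C)) ⟨?_, fun x y => ?_, fun x => ?_⟩
  · change ((v 1 : unitary C) : C) = 1
    rw [map_one]; rfl
  · change ((v (x * y) : unitary C) : C) = v x * v y
    rw [map_mul]; rfl
  · change star ((v x : unitary C) : C) = (v x⁻¹ : unitary C)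
    rw [map_inv, ← Unitary.star_eq_inv]; rfl

end Existence

/-! ### Characters of game algebras -/

/-- a character of a game algebra gives an isomorphism of the graphs -/
theorem iso_of_character {V W : Type} [Fintype V] [Fintype W] {G : SimpleGraph V}
    {H : SimpleGraph W} {A : Type} [CStarAlgebra A] {p : V → W → A} (hp : IsGameFamily G H p)
    (χ : A →⋆ₐ[ℂ] ℂ) : Nonempty (G ≃g H) := by
  classical
  have h01 : ∀ g h, χ (p g h) = 0 ∨ χ (p g h) = 1 := by
    intro g h
    have h1 : χ (p g h) * χ (p g h) = χ (p g h) := by rw [← map_mul, hp.mul_self]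
    have h2 : χ (p g h) * (χ (p g h) - 1) = 0 := by rw [mul_sub, h1, mul_one, sub_self]
    rcases mul_eq_zero.1 h2 with h | h
    · exact Or.inl h
    · exact Or.inr (sub_eq_zero.1 h)
  have hrow : ∀ g, ∃ h, χ (p g h) = 1 := by
    intro g
    by_contra hcon
    push Not at hcon
    have h1 : ∑ h, χ (p g h) = 1 := by rw [← map_sum, hp.sum_row, map_one]
    rw [Finset.sum_eq_zero (fun h _ => (h01 g h).resolve_right (hcon h))] at h1
    exact zero_ne_one h1
  have hcol : ∀ h, ∃ g, χ (p g h) = 1 := by
    intro h
    by_contra hcon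
    push Not at hcon
    have h1 : ∑ g, χ (p g h) = 1 := by rw [← map_sum, hp.sum_col, map_one]
    rw [Finset.sum_eq_zero (fun g _ => (h01 g h).resolve_right (hcon g))] at h1
    exact zero_ne_one h1
  have hrel : ∀ g g' h h', χ (p g h) = 1 → χ (p g' h') = 1 →
      (g = g' ↔ h = h') ∧ (G.Adj g g' ↔ H.Adj h h') := by
    intro g g' h h' h1 h2
    by_contra hcon
    have h3 := congrArg χ (hp.orth g g' h h' hcon)
    rw [map_mul, h1, h2, map_zero, mul_one] at h3
    exact one_ne_zero h3
  choose f hf using hrow
  have hbij : Function.Bijective f := by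
    constructor
    · intro g g' hgg
      exact (hrel g g' (f g) (f g') (hf g) (hf g')).1.2 hgg
    · intro h
      obtain ⟨g, hg⟩ := hcol h
      exact ⟨g, (hrel g g (f g) h (hf g) hg).1.1 rfl⟩
  exact ⟨{ toEquiv := Equiv.ofBijective f hbij
           map_rel_iff' := fun {g g'} => (hrel g g' (f g) (f g') (hf g) (hf g')).2.symm }⟩

/-! ### The magic square -/

open scoped ComplexOrder

theorem square_family : IsGameFamily (Gr 1) (Gr 0) pm where
  mul_self g h := by
    unfold pm
    split_ifs
    · exact P_idem _
    · exact mul_zero _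
  star_eq g h := by
    unfold pm
    split_ifs
    · exact P_star _
    · exact star_zero _
  sum_row := pm_row
  sum_col h := by
    rw [← pm_row h]
    exact Finset.sum_congr rfl fun g _ => pm_comm g h
  orth g g' h h' hne := pm_orth g g' h h' hne

theorem square_not_iso : IsEmpty (Gr 1 ≃g Gr 0) :=
  ⟨fun f => not_iso f f.toEquiv.bijective fun g g' => (f.map_rel_iff (a := g) (b := g')).symm⟩

/-- **Q1 has a negative answer.** The isomorphism game algebra `𝒜(G,H)` and the full group
C*-algebras exist. If `G` and `H` are finite graphs which are not isomorphic, then there is no unital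
star homomorphism, injective or not, from `𝒜(G,H)` to the full C*-algebra of any group. There are
finite graphs `G`, `H`, not isomorphic, with `𝒜(G,H) ≠ 0`. Hence for this pair there is no binary
linear system `M x = b` such that `𝒜(G,H)` embeds into `C*(Γ(M,b))`. -/
theorem result :
    (∀ (V W : Type) [Fintype V] [Fintype W] (G : SimpleGraph V) (H : SimpleGraph W),
      (∃ (A : Type) (_ : CStarAlgebra A) (p : V → W → A), IsGameAlgebra G H A p) ∧
      (IsEmpty (G ≃g H) → ∀ (A : Type) [CStarAlgebra A] (p : V → W → A), IsGameAlgebra G H A p →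
        ∀ (Γ : Type) [Group Γ] (B : Type) [CStarAlgebra B] (u : Γ →* unitary B),
          IsFullGroupAlgebra Γ B u → IsEmpty (A →⋆ₐ[ℂ] B))) ∧
    (∀ (Γ : Type) [Group Γ], ∃ (B : Type) (_ : CStarAlgebra B) (u : Γ →* unitary B),
      IsFullGroupAlgebra Γ B u) ∧
    ∃ (V : Type) (_ : Fintype V) (G H : SimpleGraph V), IsEmpty (G ≃g H) ∧
      ∀ (A : Type) [CStarAlgebra A] (p : V → V → A), IsGameAlgebra G H A p → Nontrivial A ∧
        ∀ (m n : ℕ) (M : Matrix (Fin m) (Fin n) (ZMod 2)) (b : Fin m → ZMod 2)
          (B : Type) [CStarAlgebra B] (u : SolutionGroup M b →* unitary B),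
          IsFullGroupAlgebra (SolutionGroup M b) B u →
            ¬ ∃ φ : A →⋆ₐ[ℂ] B, Function.Injective φ := by
  have main : ∀ (V W : Type) [Fintype V] [Fintype W] (G : SimpleGraph V) (H : SimpleGraph W),
      IsEmpty (G ≃g H) → ∀ (A : Type) [CStarAlgebra A] (p : V → W → A), IsGameAlgebra G H A p →
        ∀ (Γ : Type) [Group Γ] (B : Type) [CStarAlgebra B] (u : Γ →* unitary B),
          IsFullGroupAlgebra Γ B u → IsEmpty (A →⋆ₐ[ℂ] B) := by
    intro V W _ _ G H hiso A _ p hp Γ _ B _ u hu
    refine ⟨fun φ => ?_⟩
    obtain ⟨χ, -, -⟩ := hu ℂ 1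
    obtain ⟨f⟩ := iso_of_character hp.family (χ.comp φ)
    exact hiso.false f
  refine ⟨fun V W _ _ G H => ⟨exists_gameAlgebra G H, main V W G H⟩,
    fun Γ _ => exists_groupAlgebra Γ, Vtx, inferInstance, Gr 1, Gr 0, square_not_iso, ?_⟩
  intro A _ p hp
  constructor
  · obtain ⟨φ, -, -⟩ := hp.universal M4 pm square_family
    by_contra hA
    rw [not_nontrivial_iff_subsingleton] at hA
    have h1 : (1 : M4) = 0 := by
      rw [← map_one φ, Subsingleton.elim (1 : A) 0, map_zero]
    exact one_ne_zero h1
  · rintro m n M b B _ u hu ⟨φ, -⟩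
    exact (main Vtx Vtx (Gr 1) (Gr 0) square_not_iso A p hp _ B u hu).false φ

end Pool.Agent.Results.MP_3b70de_al.NoUnitalHomH61
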